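import Mathlib

/-!
# Eventually linear sequences in `ℤ/m` and their invariants
-/

set_option autoImplicit false

open Filter

namespace Pool.Agent.MP_09920c_lc

theorem ev_shift (P : ℕ → Prop) (d : ℕ) :
    (∀ᶠ t in atTop, P (t + d)) ↔ ∀ᶠ t in atTop, P t := by
  conv_rhs => rw [← map_add_atTop_eq_nat d]
  exact Iff.rfl

theorem ev_const {α : Type*} (u : ℕ → α) (h : ∀ᶠ t in atTop, u (t + 1) = u t) :
    ∃ c, ∀ᶠ t in atTop, u t = c := by
  obtain ⟨T, hT⟩ := eventually_atTop.mp h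
  refine ⟨u T, eventually_atTop.mpr ⟨T, fun t ht => ?_⟩⟩
  induction t, ht using Nat.le_induction with
  | base => rfl
  | succ t ht ih => rw [hT t ht, ih]

/-- `g` is eventually linear over blocks of length `Q`, with slope `κ` and value `e`. -/
def Lin (Q : ℕ) {m : ℕ} (g : ℕ → ZMod m) (κ e : ZMod m) : Prop :=
  ∀ᶠ t in atTop, g (t + Q) = g t + Q * κ ∧
    ∑ r ∈ Finset.range Q, (g (t + r) - κ * ((t + r : ℕ) : ZMod m)) = Q * e

section

variable {Q m : ℕ} [Fact m.Prime]

theorem lin_unique (hQ : (Q : ZMod m) ≠ 0) {g : ℕ → ZMod m} {κ e κ' e' : ZMod m}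
    (h : Lin Q g κ e) (h' : Lin Q g κ' e') : κ = κ' ∧ e = e' := by
  obtain ⟨t, ⟨h1, h2⟩, h3, h4⟩ := (h.and h').exists
  have h5 : κ = κ' := by
    rw [h1] at h3
    exact mul_left_cancel₀ hQ (add_left_cancel h3)
  subst h5
  rw [h2] at h4
  exact ⟨rfl, mul_left_cancel₀ hQ h4⟩

theorem sum_block_succ (f : ℕ → ZMod m) (t : ℕ) :
    ∑ r ∈ Finset.range Q, f (t + 1 + r) = ∑ r ∈ Finset.range Q, f (t + r) + f (t + Q) - f t := by
  have h1 : ∑ r ∈ Finset.range (Q + 1), f (t + r) =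
      ∑ r ∈ Finset.range Q, f (t + (r + 1)) + f (t + 0) := Finset.sum_range_succ' _ _
  rw [Finset.sum_range_succ] at h1
  have h2 : ∑ r ∈ Finset.range Q, f (t + 1 + r) = ∑ r ∈ Finset.range Q, f (t + (r + 1)) := by
    refine Finset.sum_congr rfl fun r _ => ?_
    congr 1
    omega
  rw [h2, h1]
  simp

theorem lin_exists (hQ : (Q : ZMod m) ≠ 0) {g : ℕ → ZMod m} {c : ZMod m}
    (h : ∀ᶠ t in atTop, g (t + Q) = g t + c) : ∃ κ e, Lin Q g κ e := by
  set κ : ZMod m := c / Q with hκ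
  have hQκ : (Q : ZMod m) * κ = c := by rw [hκ]; field_simp
  let F : ℕ → ZMod m := fun t => ∑ r ∈ Finset.range Q, (g (t + r) - κ * ((t + r : ℕ) : ZMod m))
  have h1 : ∀ᶠ t in atTop, F (t + 1) = F t := by
    filter_upwards [h] with t ht
    have h2 := sum_block_succ (Q := Q) (fun s => g s - κ * (s : ZMod m)) t
    show ∑ r ∈ Finset.range Q, (g (t + 1 + r) - κ * ((t + 1 + r : ℕ) : ZMod m)) =
      ∑ r ∈ Finset.range Q, (g (t + r) - κ * ((t + r : ℕ) : ZMod m))
    rw [h2, ht]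
    push_cast
    linear_combination -hQκ
  obtain ⟨v, hv⟩ := ev_const F h1
  refine ⟨κ, v / Q, ?_⟩
  filter_upwards [h, hv] with t ht hFt
  refine ⟨by rw [ht, hQκ], ?_⟩
  show F t = _
  rw [hFt]
  field_simp

theorem lin_shift {g : ℕ → ZMod m} {κ e : ZMod m} (d : ℕ) :
    Lin Q (fun t => g (t + d)) κ e ↔ Lin Q g κ (e - κ * d) := by
  unfold Lin
  rw [← ev_shift (fun t => g (t + Q) = g t + Q * κ ∧
    ∑ r ∈ Finset.range Q, (g (t + r) - κ * ((t + r : ℕ) : ZMod m)) = Q * (e - κ * d)) d]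
  have key : ∀ t : ℕ, (g (t + Q + d) = g (t + d) + Q * κ ∧
      ∑ r ∈ Finset.range Q, (g (t + r + d) - κ * ((t + r : ℕ) : ZMod m)) = Q * e) ↔
      (g (t + d + Q) = g (t + d) + Q * κ ∧
      ∑ r ∈ Finset.range Q, (g (t + d + r) - κ * ((t + d + r : ℕ) : ZMod m)) =
        Q * (e - κ * d)) := by
    intro t
    have h1 : t + Q + d = t + d + Q := by omega
    have h2 : ∑ r ∈ Finset.range Q, (g (t + d + r) - κ * ((t + d + r : ℕ) : ZMod m)) =
        ∑ r ∈ Finset.range Q, (g (t + r + d) - κ * ((t + r : ℕ) : ZMod m)) - Q * (κ * d) := by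
      have h3 : (Q : ZMod m) * (κ * d) = ∑ r ∈ Finset.range Q, κ * (d : ZMod m) := by
        rw [Finset.sum_const, Finset.card_range, nsmul_eq_mul]
      rw [h3, ← Finset.sum_sub_distrib]
      refine Finset.sum_congr rfl fun r _ => ?_
      have h4 : t + d + r = t + r + d := by omega
      rw [h4]
      push_cast
      ring
    rw [h1, h2]
    constructor
    · rintro ⟨h3, h4⟩
      exact ⟨h3, by rw [h4]; ring⟩
    · rintro ⟨h3, h4⟩
      exact ⟨h3, by linear_combination h4⟩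
  exact eventually_congr (Eventually.of_forall key)

theorem lin_add_aux {g g' : ℕ → ZMod m} {κ e c : ZMod m} (hg : ∀ᶠ t in atTop, g' t = g t + c)
    (h : Lin Q g κ e) : Lin Q g' κ (e + c) := by
  obtain ⟨T, hT⟩ := eventually_atTop.mp hg
  filter_upwards [h, eventually_ge_atTop T] with t ht htT
  refine ⟨?_, ?_⟩
  · rw [hT _ (by omega), hT _ htT, ht.1]; ring
  · have h1 : ∑ r ∈ Finset.range Q, (g' (t + r) - κ * ((t + r : ℕ) : ZMod m)) =
        ∑ r ∈ Finset.range Q, (g (t + r) - κ * ((t + r : ℕ) : ZMod m)) + Q * c := by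
      have h3 : (Q : ZMod m) * c = ∑ r ∈ Finset.range Q, c := by
        rw [Finset.sum_const, Finset.card_range, nsmul_eq_mul]
      rw [h3, ← Finset.sum_add_distrib]
      refine Finset.sum_congr rfl fun r _ => ?_
      rw [hT _ (by omega)]
      ring
    rw [h1, ht.2]
    ring

theorem lin_add {g g' : ℕ → ZMod m} {κ e c : ZMod m} (hg : ∀ᶠ t in atTop, g' t = g t + c) :
    Lin Q g' κ e ↔ Lin Q g κ (e - c) := by
  constructor
  · intro h
    have h1 : ∀ᶠ t in atTop, g t = g' t + -c := by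
      filter_upwards [hg] with t ht
      rw [ht]; ring
    have := lin_add_aux h1 h
    rwa [← sub_eq_add_neg] at this
  · intro h
    have := lin_add_aux hg h
    simpa using this

/-- If `g` is not eventually linear, its difference sequence is not eventually periodic. -/
theorem not_periodic (hQ : (Q : ZMod m) ≠ 0) {g : ℕ → ZMod m} (h : ¬ ∃ κ e, Lin Q g κ e) :
    ¬ ∀ᶠ t in atTop, g (t + Q + 1) - g (t + Q) = g (t + 1) - g t := by
  intro h1
  apply h
  let F : ℕ → ZMod m := fun t => g (t + Q) - g t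
  have h2 : ∀ᶠ t in atTop, F (t + 1) = F t := by
    filter_upwards [h1] with t ht
    show g (t + 1 + Q) - g (t + 1) = g (t + Q) - g t
    have h3 : t + 1 + Q = t + Q + 1 := by omega
    rw [h3]
    linear_combination ht
  obtain ⟨c, hc⟩ := ev_const F h2
  refine lin_exists hQ (c := c) ?_
  filter_upwards [hc] with t ht
  rw [← ht]
  show g (t + Q) = g t + (g (t + Q) - g t)
  ring

end

end Pool.Agent.MP_09920c_lc
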