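import Mathlib

/-!
# Measurability of predicates
-/

set_option autoImplicit false

open Filter

namespace Pool.Agent.MP_09920c_lc

section

variable {Ω : Type*} [MeasurableSpace Ω]

theorem ms_forall {ι : Sort*} [Countable ι] {P : Ω → ι → Prop}
    (h : ∀ i, MeasurableSet {s | P s i}) : MeasurableSet {s | ∀ i, P s i} := by
  have : {s | ∀ i, P s i} = ⋂ i, {s | P s i} := by ext s; simp
  rw [this]
  exact MeasurableSet.iInter h

theorem ms_exists {ι : Sort*} [Countable ι] {P : Ω → ι → Prop}
    (h : ∀ i, MeasurableSet {s | P s i}) : MeasurableSet {s | ∃ i, P s i} := by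
  have : {s | ∃ i, P s i} = ⋃ i, {s | P s i} := by ext s; simp
  rw [this]
  exact MeasurableSet.iUnion h

theorem ms_and {P P' : Ω → Prop} (h : MeasurableSet {s | P s}) (h' : MeasurableSet {s | P' s}) :
    MeasurableSet {s | P s ∧ P' s} := h.inter h'

theorem ms_or {P P' : Ω → Prop} (h : MeasurableSet {s | P s}) (h' : MeasurableSet {s | P' s}) :
    MeasurableSet {s | P s ∨ P' s} := h.union h'

theorem ms_not {P : Ω → Prop} (h : MeasurableSet {s | P s}) : MeasurableSet {s | ¬ P s} :=
  h.compl

theorem ms_imp {P P' : Ω → Prop} (h : MeasurableSet {s | P s}) (h' : MeasurableSet {s | P' s}) :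
    MeasurableSet {s | P s → P' s} := by
  have : {s | P s → P' s} = {s | ¬ P s ∨ P' s} := by
    ext s
    simp only [Set.mem_setOf_eq]
    tauto
  rw [this]
  exact ms_or (ms_not h) h'

theorem ms_const (p : Prop) : MeasurableSet {_s : Ω | p} := MeasurableSet.const p

theorem ms_ev {P : Ω → ℕ → Prop} (h : ∀ t, MeasurableSet {s | P s t}) :
    MeasurableSet {s | ∀ᶠ t in atTop, P s t} := by
  simp only [eventually_atTop]
  exact ms_exists fun T => ms_forall fun t => ms_forall fun _ => h t

end

end Pool.Agent.MP_09920c_lc
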