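import Mathlib
import Pool.Agent.Lib.MP_09920c_lc.Meas

/-!
# Markers in non-periodic words

For a word `z` over a finite alphabet which is not eventually `Q`-periodic we choose, in a
shift invariant way, a subword whose occurrences are infinitely many and pairwise far apart.
-/

set_option autoImplicit false

open Filter

namespace Pool.Agent.MP_09920c_lc

section

variable {R : Type} [Finite R] {Q : ℕ}

/-- The word `w` occurs in `z` at position `t`. -/
def Occ (z : ℕ → R) (w : Fin (Q + 1) → R) (t : ℕ) : Prop := ∀ i : Fin (Q + 1), z (t + i) = w i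

/-- `w` has distinct end letters and occurs infinitely often in `z`. -/
def Qual (z : ℕ → R) (w : Fin (Q + 1) → R) : Prop :=
  w 0 ≠ w (Fin.last Q) ∧ ∀ T, ∃ t, T ≤ t ∧ Occ z w t

/-- An enumeration of the words. -/
noncomputable def enc (R : Type) [Finite R] (Q : ℕ) : (Fin (Q + 1) → R) → ℕ :=
  Classical.choose (exists_injective_nat (Fin (Q + 1) → R))

theorem enc_injective (R : Type) [Finite R] (Q : ℕ) : Function.Injective (enc R Q) :=
  Classical.choose_spec (exists_injective_nat (Fin (Q + 1) → R))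

/-- The least qualified word. -/
def Least (z : ℕ → R) (w : Fin (Q + 1) → R) : Prop :=
  Qual z w ∧ ∀ w', Qual z w' → enc R Q w ≤ enc R Q w'

theorem least_unique {z : ℕ → R} {w w' : Fin (Q + 1) → R} (h : Least z w) (h' : Least z w') :
    w = w' :=
  enc_injective R Q (le_antisymm (h.2 w' h'.1) (h'.2 w h.1))

theorem occ_shift (z : ℕ → R) (w : Fin (Q + 1) → R) (d t : ℕ) :
    Occ (fun s => z (s + d)) w t ↔ Occ z w (t + d) := by
  unfold Occ
  refine forall_congr' fun i => ?_
  have : t + (i : ℕ) + d = t + d + i := by omega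
  show z (t + (i : ℕ) + d) = w i ↔ z (t + d + i) = w i
  rw [this]

theorem qual_shift (z : ℕ → R) (w : Fin (Q + 1) → R) (d : ℕ) :
    Qual (fun s => z (s + d)) w ↔ Qual z w := by
  unfold Qual
  refine and_congr_right fun _ => ?_
  constructor
  · intro h T
    obtain ⟨t, h1, h2⟩ := h T
    exact ⟨t + d, by omega, (occ_shift z w d t).mp h2⟩
  · intro h T
    obtain ⟨t, h1, h2⟩ := h (T + d)
    refine ⟨t - d, by omega, (occ_shift z w d _).mpr ?_⟩
    have : t - d + d = t := by omega
    rw [this]; exact h2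

theorem least_shift (z : ℕ → R) (w : Fin (Q + 1) → R) (d : ℕ) :
    Least (fun s => z (s + d)) w ↔ Least z w := by
  unfold Least
  simp only [qual_shift]

theorem exists_qual (z : ℕ → R) (h : ¬ ∀ᶠ t in atTop, z (t + Q) = z t) :
    ∃ w : Fin (Q + 1) → R, Qual z w := by
  by_contra hcon
  apply h
  have h1 : ∀ w : Fin (Q + 1) → R, ∀ᶠ t in atTop, ¬ (w 0 ≠ w (Fin.last Q) ∧ Occ z w t) := by
    intro w
    by_cases hw : w 0 ≠ w (Fin.last Q)
    · have h2 : ¬ ∀ T, ∃ t, T ≤ t ∧ Occ z w t := fun h3 => hcon ⟨w, hw, h3⟩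
      rw [not_forall] at h2
      obtain ⟨T, hT⟩ := h2
      rw [eventually_atTop]
      exact ⟨T, fun t ht h4 => hT ⟨t, ht, h4.2⟩⟩
    · exact Eventually.of_forall fun t h4 => hw h4.1
  filter_upwards [eventually_all.mpr h1] with t ht
  by_contra hne
  refine ht (fun i => z (t + i)) ⟨?_, fun i => rfl⟩
  intro h5
  apply hne
  simpa using h5.symm

theorem exists_least (z : ℕ → R) (h : ¬ ∀ᶠ t in atTop, z (t + Q) = z t) :
    ∃ w : Fin (Q + 1) → R, Least z w := by
  classical
  have hex : ∃ n, ∃ w : Fin (Q + 1) → R, Qual z w ∧ enc R Q w = n := by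
    obtain ⟨w, hw⟩ := exists_qual z h
    exact ⟨_, w, hw, rfl⟩
  obtain ⟨w, hw, hw'⟩ := Nat.find_spec hex
  refine ⟨w, hw, fun w' hw'' => ?_⟩
  rw [hw']
  exact Nat.find_min' hex ⟨w', hw'', rfl⟩

/-- `r` is the distance to the next occurrence of the least qualified word. -/
def Mk (z : ℕ → R) (w : Fin (Q + 1) → R) (r : ℕ) : Prop :=
  Least z w ∧ Occ z w r ∧ ∀ r' < r, ¬ Occ z w r'

theorem exists_mk (z : ℕ → R) (h : ¬ ∀ᶠ t in atTop, z (t + Q) = z t) :
    ∃ (w : Fin (Q + 1) → R) (r : ℕ), Mk z w r := by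
  classical
  obtain ⟨w, hw⟩ := exists_least z h
  have hex : ∃ r, Occ z w r := by
    obtain ⟨t, _, ht⟩ := hw.1.2 0
    exact ⟨t, ht⟩
  exact ⟨w, Nat.find hex, hw, Nat.find_spec hex, fun r' hr' => Nat.find_min hex hr'⟩

omit [Finite R] in
theorem gap (K : ℕ) (hQ : ∀ p, 0 < p → p < 2 * K → p ∣ Q) (z : ℕ → R) (w : Fin (Q + 1) → R)
    (hw : w 0 ≠ w (Fin.last Q)) (t p : ℕ) (hp : 0 < p) (h1 : Occ z w t) (h2 : Occ z w (t + p)) :
    2 * K ≤ p := by
  by_contra hlt
  obtain ⟨q, hq⟩ := hQ p hp (not_le.mp hlt)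
  apply hw
  have h3 : ∀ j, p * j ≤ Q → z (t + p * j) = z t := by
    intro j
    induction j with
    | zero => intro _; simp
    | succ j ih =>
      intro hj
      have hj' : p * j ≤ Q := le_trans (Nat.mul_le_mul_left _ (Nat.le_succ j)) hj
      have h4 := h1 ⟨p * j, Nat.lt_succ_of_le hj'⟩
      have h5 := h2 ⟨p * j, Nat.lt_succ_of_le hj'⟩
      simp only at h4 h5
      have h6 : t + p * (j + 1) = t + p + p * j := by ring
      rw [h6, h5, ← h4]
      exact ih hj'
  have h7 := h1 0
  have h8 := h1 (Fin.last Q)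
  rw [← h7, ← h8]
  have h9 := h3 q (by rw [hq])
  rw [← hq] at h9
  simpa using h9.symm

/-- The colour of a state at distance `r` from the next marker. -/
def mcl (K r : ℕ) : ℕ := (if r < K then 0 else 2) + r % 2

theorem mcl_lt (K r : ℕ) : mcl K r < 4 := by
  unfold mcl; split_ifs <;> omega

theorem mk_proper (K : ℕ) (hQ : ∀ p, 0 < p → p < 2 * K → p ∣ Q) (z : ℕ → R) (d : ℕ)
    (hd : Odd d) (hdK : d < K) (w w' : Fin (Q + 1) → R) (r r' : ℕ) (h : Mk z w r)
    (h' : Mk (fun s => z (s + d)) w' r') : mcl K r ≠ mcl K r' := by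
  obtain ⟨hL, hO, hM⟩ := h
  obtain ⟨hL', hO', hM'⟩ := h'
  have hww : w = w' := least_unique hL ((least_shift z w' d).mp hL')
  subst hww
  have hO'' := (occ_shift z w d r').mp hO'
  have hrr : r ≤ r' + d := by
    by_contra hlt
    exact hM _ (not_le.mp hlt) hO''
  obtain ⟨q, hq⟩ := hd
  by_cases hdr : d ≤ r
  · have h1 : r' ≤ r - d := by
      by_contra hlt
      refine hM' _ (not_le.mp hlt) ((occ_shift z w d _).mpr ?_)
      have : r - d + d = r := by omega
      rw [this]; exact hO
    have h2 : r = r' + d := by omega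
    unfold mcl
    split_ifs <;> omega
  · have h1 : 2 * K ≤ r' + d - r := by
      refine gap K hQ z w hL.1.1 r (r' + d - r) (by omega) hO ?_
      have : r + (r' + d - r) = r' + d := by omega
      rw [this]; exact hO''
    unfold mcl
    rw [if_pos (by omega), if_neg (by omega)]
    omega

end

section measurability

variable {R : Type} [Finite R] {Q : ℕ} {Ω : Type*} [MeasurableSpace Ω]

omit [Finite R] in
theorem measurable_occ (z : Ω → ℕ → R) (hz : ∀ t v, MeasurableSet {s | z s t = v})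
    (w : Fin (Q + 1) → R) (t : ℕ) : MeasurableSet {s | Occ (z s) w t} :=
  ms_forall fun i => hz _ _

theorem measurable_qual (z : Ω → ℕ → R) (hz : ∀ t v, MeasurableSet {s | z s t = v})
    (w : Fin (Q + 1) → R) : MeasurableSet {s | Qual (z s) w} :=
  ms_and (ms_const _) (ms_forall fun _ => ms_exists fun t =>
    ms_and (ms_const _) (measurable_occ z hz w t))

theorem measurable_least (z : Ω → ℕ → R) (hz : ∀ t v, MeasurableSet {s | z s t = v})
    (w : Fin (Q + 1) → R) : MeasurableSet {s | Least (z s) w} :=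
  ms_and (measurable_qual z hz w) (ms_forall fun w' =>
    ms_imp (measurable_qual z hz w') (ms_const _))

theorem measurable_mk (z : Ω → ℕ → R) (hz : ∀ t v, MeasurableSet {s | z s t = v})
    (w : Fin (Q + 1) → R) (r : ℕ) : MeasurableSet {s | Mk (z s) w r} :=
  ms_and (measurable_least z hz w) (ms_and (measurable_occ z hz w r)
    (ms_forall fun r' => ms_forall fun _ => ms_not (measurable_occ z hz w r')))

theorem measurable_mcol (z : Ω → ℕ → R) (hz : ∀ t v, MeasurableSet {s | z s t = v})
    (K : ℕ) (f : ℕ → Prop) :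
    MeasurableSet {s | ∃ (w : Fin (Q + 1) → R) (r : ℕ), Mk (z s) w r ∧ f (mcl K r)} :=
  ms_exists fun w => ms_exists fun r => ms_and (measurable_mk z hz w r) (ms_const _)

end measurability

end Pool.Agent.MP_09920c_lc
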