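import Mathlib

/-!
# The arithmetic lemma

For every slope there are two characters of `ℤ/m` which together move all but one of the
numbers `κ δ_l ± λ`, `δ_l = N^(2l+1)`, far away from `0`.
-/

set_option autoImplicit false

namespace Pool.Agent.MP_09920c_lc

/-- `z ∈ ℤ/m` is at distance at least `m/5` from `0`. -/
def Far (m : ℕ) (z : ZMod m) : Prop :=
  ∃ a : ℤ, (a : ZMod m) = z ∧ (m : ℤ) ≤ 5 * |a| ∧ 5 * |a| ≤ 4 * m

theorem Far.neg {m : ℕ} {z : ZMod m} (h : Far m z) : Far m (-z) := by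
  obtain ⟨a, h1, h2, h3⟩ := h
  refine ⟨-a, by push_cast; rw [h1], ?_, ?_⟩ <;> rw [abs_neg] <;> assumption

/-- One of five arcs of `ℤ/m`. -/
def arc (m : ℕ) (z : ZMod m) : ℕ := 5 * z.val / m

theorem arc_lt (m : ℕ) [NeZero m] (z : ZMod m) : arc m z < 5 := by
  have h : z.val < m := ZMod.val_lt z
  have hm : 0 < m := Nat.pos_of_ne_zero (NeZero.ne m)
  rw [arc, Nat.div_lt_iff_lt_mul hm]
  omega

theorem arc_ne_of_far (m : ℕ) [NeZero m] (z w : ZMod m) (h : Far m (z - w)) :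
    arc m z ≠ arc m w := by
  intro he
  obtain ⟨a, h1, h2, h3⟩ := h
  have hm : 0 < m := Nat.pos_of_ne_zero (NeZero.ne m)
  have hz1 : arc m z * m ≤ 5 * z.val := Nat.div_mul_le_self _ _
  have hz2 : 5 * z.val < arc m z * m + m := Nat.lt_div_mul_add hm
  have hw1 : arc m w * m ≤ 5 * w.val := Nat.div_mul_le_self _ _
  have hw2 : 5 * w.val < arc m w * m + m := Nat.lt_div_mul_add hm
  rw [← he] at hw1 hw2
  generalize arc m z * m = q at *
  have h4 : ((a - ((z.val : ℤ) - (w.val : ℤ)) : ℤ) : ZMod m) = 0 := by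
    push_cast
    rw [h1, ZMod.natCast_zmod_val, ZMod.natCast_zmod_val]
    ring
  rw [ZMod.intCast_zmod_eq_zero_iff_dvd] at h4
  obtain ⟨k, hk⟩ := h4
  have ha : a = (z.val : ℤ) - (w.val : ℤ) + m * k := by linarith
  rcases lt_trichotomy k 0 with hk0 | hk0 | hk0
  · have h5 : (m : ℤ) * k ≤ -m := by nlinarith
    have h6 : a < 0 := by omega
    rw [abs_of_neg h6] at h2 h3
    omega
  · subst hk0
    rcases abs_cases a with ⟨h6, h7⟩ | ⟨h6, h7⟩ <;> rw [h6] at h2 <;> omega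
  · have h5 : (m : ℤ) ≤ (m : ℤ) * k := by nlinarith
    have h6 : 0 < a := by omega
    rw [abs_of_pos h6] at h2 h3
    omega

theorem far_low (m : ℕ) (x y : ℤ) (hx : 11 * |x| ≤ |y|) (hy : (m : ℤ) ≤ 4 * |y|)
    (hy' : 2 * |y| < m) : (m : ℤ) ≤ 5 * |x + y| ∧ 5 * |x + y| ≤ 4 * m := by
  rcases abs_cases x with ⟨h1, h2⟩ | ⟨h1, h2⟩ <;> rcases abs_cases y with ⟨h3, h4⟩ | ⟨h3, h4⟩ <;>
    rcases abs_cases (x + y) with ⟨h5, h6⟩ | ⟨h5, h6⟩ <;> constructor <;> omega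

theorem far_high (m : ℕ) (R x y : ℤ) (hR : 0 ≤ R) (hR' : 5 * R ≤ m) (hx : 2 * x = m - R)
    (hy : 22 * |y| ≤ m) : (m : ℤ) ≤ 5 * |x + y| ∧ 5 * |x + y| ≤ 4 * m := by
  rcases abs_cases y with ⟨h3, h4⟩ | ⟨h3, h4⟩ <;>
    rcases abs_cases (x + y) with ⟨h5, h6⟩ | ⟨h5, h6⟩ <;> constructor <;> omega

theorem num_core (N L m : ℕ) (hN : Odd N) (hN11 : 11 ≤ N) (hm : Odd m)
    (hmL : 10 * N ^ (2 * L + 2) ≤ m) (ν : ZMod m) :
    ∃ (j1 j2 : ZMod m) (l0 : ℕ), ∀ l < L,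
      (l < l0 → Far m (j1 * ((N : ZMod m) ^ (2 * l + 1) + ν)) ∧
        Far m (j1 * ((N : ZMod m) ^ (2 * l + 1) - ν))) ∧
      (l0 < l → Far m (j2 * ((N : ZMod m) ^ (2 * l + 1) + ν)) ∧
        Far m (j2 * ((N : ZMod m) ^ (2 * l + 1) - ν))) := by
  classical
  have hm0 : 0 < m := hm.pos
  haveI : NeZero m := ⟨hm0.ne'⟩
  set n0 : ℤ := ν.valMinAbs with hn0
  have hν : ((n0 : ℤ) : ZMod m) = ν := ZMod.coe_valMinAbs ν
  set a0 : ℕ := n0.natAbs with ha0
  have ha0' : (a0 : ℤ) = |n0| := Int.natCast_natAbs n0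
  have ha0m : 2 * a0 < m := by
    have h1 : a0 ≤ m / 2 := ZMod.natAbs_valMinAbs_le ν
    obtain ⟨q, hq⟩ := hm
    omega
  -- the first character
  have hj1 : ∃ k : ℕ, 0 < a0 → (m ≤ 4 * (2 ^ k * a0) ∧ 2 * (2 ^ k * a0) < m) := by
    by_cases h0 : 0 < a0
    · have hex : ∃ k : ℕ, m ≤ 4 * (2 ^ k * a0) := by
        refine ⟨m, ?_⟩
        have h1 : m < 2 ^ m := Nat.lt_two_pow_self
        nlinarith
      refine ⟨Nat.find hex, fun _ => ⟨Nat.find_spec hex, ?_⟩⟩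
      rcases Nat.eq_zero_or_pos (Nat.find hex) with h1 | h1
      · rw [h1]; simpa using ha0m
      · obtain ⟨k', hk'⟩ : ∃ k', Nat.find hex = k' + 1 := ⟨Nat.find hex - 1, by omega⟩
        have h2 := Nat.find_min hex (m := k') (by omega)
        rw [hk', pow_succ]
        have h3 : 2 ^ k' * 2 * a0 = 2 * (2 ^ k' * a0) := by ring
        rw [h3]
        omega
    · exact ⟨0, fun h => absurd h h0⟩
  obtain ⟨k, hk⟩ := hj1
  -- the exceptional index
  have hl0 : ∃ l0 : ℕ, (∀ l < L, l < l0 → N ^ (2 * l + 2) ≤ a0) ∧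
      (∀ l < L, l0 < l → a0 < N ^ (2 * l0 + 2)) := by
    by_cases h : ∃ l, l < L ∧ a0 < N ^ (2 * l + 2)
    · refine ⟨Nat.find h, ?_, ?_⟩
      · intro l hl hl'
        have := Nat.find_min h hl'
        push_neg at this
        exact this hl
      · intro l hl hl'
        exact (Nat.find_spec h).2
    · push_neg at h
      exact ⟨L, fun l hl _ => h l hl, fun l hl hl' => by omega⟩
  obtain ⟨l0, hlow, hhigh⟩ := hl0
  set P : ℕ := N ^ (2 * l0 + 3) with hP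
  have hNpos : 0 < N := by omega
  have hPpos : 0 < P := pow_pos hNpos _
  set j : ℕ := m / (2 * P) with hj
  refine ⟨((2 ^ k : ℤ) : ZMod m), ((j : ℤ) : ZMod m), l0, ?_⟩
  intro l hl
  refine ⟨?_, ?_⟩
  · intro hll
    have h1 := hlow l hl hll
    have h2 : N ^ (2 * l + 2) = N * N ^ (2 * l + 1) := by rw [← pow_succ']
    set D : ℕ := N ^ (2 * l + 1) with hD
    have h3 : 11 * D ≤ a0 := by
      calc 11 * D ≤ N * D := Nat.mul_le_mul_right _ hN11
        _ ≤ a0 := by rw [← h2]; exact h1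
    have hDpos : 0 < D := pow_pos hNpos _
    have h0 : 0 < a0 := by omega
    obtain ⟨hk1, hk2⟩ := hk h0
    have e1 : |(2 : ℤ) ^ k * (D : ℤ)| = 2 ^ k * D := abs_of_nonneg (by positivity)
    have e2 : |(2 : ℤ) ^ k * n0| = 2 ^ k * a0 := by
      rw [abs_mul, ha0', abs_of_nonneg (by positivity : (0 : ℤ) ≤ 2 ^ k)]
    have e3 : |-((2 : ℤ) ^ k * n0)| = 2 ^ k * a0 := by rw [abs_neg, e2]
    have b1 : 11 * |(2 : ℤ) ^ k * (D : ℤ)| ≤ 2 ^ k * (a0 : ℤ) := by
      rw [e1]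
      have : (11 : ℤ) * D ≤ a0 := by exact_mod_cast h3
      have h2k : (0 : ℤ) < 2 ^ k := by positivity
      nlinarith
    have b2 : (m : ℤ) ≤ 4 * (2 ^ k * (a0 : ℤ)) := by exact_mod_cast hk1
    have b3 : 2 * (2 ^ k * (a0 : ℤ)) < m := by exact_mod_cast hk2
    constructor
    · have h4 := far_low m ((2 : ℤ) ^ k * D) (2 ^ k * n0) (by rw [e2]; exact b1)
        (by rw [e2]; exact b2) (by rw [e2]; exact b3)
      refine ⟨(2 : ℤ) ^ k * D + 2 ^ k * n0, ?_, h4.1, h4.2⟩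
      push_cast
      rw [hν, hD]
      push_cast
      ring
    · have h4 := far_low m ((2 : ℤ) ^ k * D) (-(2 ^ k * n0)) (by rw [e3]; exact b1)
        (by rw [e3]; exact b2) (by rw [e3]; exact b3)
      refine ⟨(2 : ℤ) ^ k * D + -(2 ^ k * n0), ?_, h4.1, h4.2⟩
      push_cast
      rw [hν, hD]
      push_cast
      ring
  · intro hll
    have h1 := hhigh l hl hll
    -- `N^(2l+1) = P * w`
    obtain ⟨d, hd⟩ : ∃ d, l = l0 + 1 + d := ⟨l - (l0 + 1), by omega⟩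
    set w : ℕ := N ^ (2 * d) with hw
    have hDw : N ^ (2 * l + 1) = P * w := by
      rw [hP, hw, ← pow_add, hd]
      congr 1
      ring
    have hwodd : Odd w := hN.pow
    obtain ⟨w', hw'⟩ := hwodd
    obtain ⟨q, hq⟩ := hm
    set r : ℕ := m % (2 * P) with hr
    have hmr : 2 * P * j + r = m := Nat.div_add_mod m (2 * P)
    have hrlt : r < 2 * P := Nat.mod_lt _ (by omega)
    -- bounds
    have hbound : P * w * N ≤ N ^ (2 * L + 2) := by
      rw [← hDw, ← pow_succ]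
      exact Nat.pow_le_pow_right hNpos (by omega)
    have hPw : 11 * (P * w) ≤ N ^ (2 * L + 2) := by
      calc 11 * (P * w) = P * w * 11 := by ring
        _ ≤ P * w * N := Nat.mul_le_mul_left _ hN11
        _ ≤ _ := hbound
    have hwr : w * r ≤ w * (2 * P) := Nat.mul_le_mul_left _ hrlt.le
    have hwr' : w * (2 * P) = 2 * (P * w) := by ring
    have hR : 5 * (w * r) ≤ m := by omega
    have hB : 22 * (j * a0) ≤ m := by
      have h3 : P = N * N ^ (2 * l0 + 2) := by rw [hP, ← pow_succ']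
      have h4 : 2 * P * j ≤ m := by omega
      calc 22 * (j * a0) ≤ 22 * (j * N ^ (2 * l0 + 2)) := by gcongr
        _ = 2 * (11 * N ^ (2 * l0 + 2)) * j := by ring
        _ ≤ 2 * (N * N ^ (2 * l0 + 2)) * j := by gcongr
        _ = 2 * P * j := by rw [h3]
        _ ≤ m := h4
    -- the integer representative
    have hx : 2 * ((j : ℤ) * (P * w) - w' * m) = m - (w * r : ℕ) := by
      have h5 : (2 * P * j + r : ℤ) = m := by exact_mod_cast hmr
      have h6 : (w : ℤ) = 2 * w' + 1 := by exact_mod_cast hw'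
      push_cast
      have h7 : 2 * ((j : ℤ) * (P * w)) = w * (m - r) := by rw [← h5]; ring
      have h8 : (w : ℤ) * m = 2 * w' * m + m := by rw [h6]; ring
      linarith
    have e2 : |(j : ℤ) * n0| = ((j * a0 : ℕ) : ℤ) := by
      rw [abs_mul]; push_cast; rw [ha0']; simp
    have e3 : |-((j : ℤ) * n0)| = ((j * a0 : ℕ) : ℤ) := by rw [abs_neg, e2]
    have hR0 : (0 : ℤ) ≤ ((w * r : ℕ) : ℤ) := Int.natCast_nonneg _
    have hR' : 5 * ((w * r : ℕ) : ℤ) ≤ m := by exact_mod_cast hR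
    have hB' : 22 * ((j * a0 : ℕ) : ℤ) ≤ m := by exact_mod_cast hB
    have hNw : (N : ZMod m) ^ (2 * l + 1) = (P : ZMod m) * w := by
      have := congrArg (fun n : ℕ => (n : ZMod m)) hDw
      push_cast at this
      rw [this]
    constructor
    · have h4 := far_high m _ ((j : ℤ) * (P * w) - w' * m) (j * n0) hR0 hR' hx
        (by rw [e2]; exact hB')
      refine ⟨_, ?_, h4.1, h4.2⟩
      rw [hNw]
      push_cast
      rw [hν, ZMod.natCast_self]
      ring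
    · have h4 := far_high m _ ((j : ℤ) * (P * w) - w' * m) (-(j * n0)) hR0 hR' hx
        (by rw [e3]; exact hB')
      refine ⟨_, ?_, h4.1, h4.2⟩
      rw [hNw]
      push_cast
      rw [hν, ZMod.natCast_self]
      ring

theorem num_lemma (N L m : ℕ) [Fact m.Prime] (hN : Odd N) (hN11 : 11 ≤ N)
    (hmL : 10 * N ^ (2 * L + 2) ≤ m) (κ lam : ZMod m) (h : κ ≠ 0 ∨ lam ≠ 0) :
    ∃ (j1 j2 : ZMod m) (l0 : ℕ), ∀ l < L,
      (l < l0 → Far m (j1 * (κ * (N : ZMod m) ^ (2 * l + 1) + lam)) ∧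
        Far m (j1 * (κ * (N : ZMod m) ^ (2 * l + 1) - lam))) ∧
      (l0 < l → Far m (j2 * (κ * (N : ZMod m) ^ (2 * l + 1) + lam)) ∧
        Far m (j2 * (κ * (N : ZMod m) ^ (2 * l + 1) - lam))) := by
  have hp : m.Prime := Fact.out
  have hpow : 1 ≤ N ^ (2 * L + 2) := Nat.one_le_pow _ _ (by omega)
  have hm10 : 10 ≤ m := by omega
  have hodd : Odd m := hp.odd_of_ne_two (by omega)
  by_cases hκ : κ = 0
  · have hlam : lam ≠ 0 := by
      rcases h with h | h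
      · exact absurd hκ h
      · exact h
    obtain ⟨q, hq⟩ := id hodd
    have hfar : Far m ((q : ℤ) : ZMod m) := by
      refine ⟨q, rfl, ?_, ?_⟩ <;> rw [abs_of_nonneg (Int.natCast_nonneg q)] <;> omega
    refine ⟨((q : ℤ) : ZMod m) * lam⁻¹, 0, L, ?_⟩
    intro l hl
    refine ⟨fun _ => ⟨?_, ?_⟩, fun h => absurd h (by omega)⟩
    · have : ((q : ℤ) : ZMod m) * lam⁻¹ * (κ * (N : ZMod m) ^ (2 * l + 1) + lam) = (q : ℤ) := by
        rw [hκ]; field_simp; ring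
      rw [this]; exact hfar
    · have : ((q : ℤ) : ZMod m) * lam⁻¹ * (κ * (N : ZMod m) ^ (2 * l + 1) - lam) = -(q : ℤ) := by
        rw [hκ]; field_simp; ring
      rw [this]; exact hfar.neg
  · obtain ⟨j1, j2, l0, hj⟩ := num_core N L m hN hN11 hodd hmL (lam * κ⁻¹)
    refine ⟨j1 * κ⁻¹, j2 * κ⁻¹, l0, ?_⟩
    intro l hl
    have e1 : ∀ j : ZMod m, j * κ⁻¹ * (κ * (N : ZMod m) ^ (2 * l + 1) + lam) =
        j * ((N : ZMod m) ^ (2 * l + 1) + lam * κ⁻¹) := by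
      intro j; field_simp
    have e2 : ∀ j : ZMod m, j * κ⁻¹ * (κ * (N : ZMod m) ^ (2 * l + 1) - lam) =
        j * ((N : ZMod m) ^ (2 * l + 1) - lam * κ⁻¹) := by
      intro j; field_simp
    simp only [e1, e2]
    exact hj l hl

end Pool.Agent.MP_09920c_lc
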