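import Mathlib
import Pool.Agent.Lib.MP_09920c_lc.Meas
import Pool.Agent.Lib.MP_09920c_lc.Number
import Pool.Agent.Lib.MP_09920c_lc.Invariant
import Pool.Agent.Lib.MP_09920c_lc.Marker

/-!
# The colouring of the product, for a fixed level `L`
-/

set_option autoImplicit false

open Filter

namespace Pool.Agent.MP_09920c_lc

/-- Remove the first `d` elements of the set enumerated by `b`. -/
def sh (d : ℕ) (b : ℕ → ℕ) : ℕ → ℕ := fun t => b (t + d)

theorem sh_strictMono {b : ℕ → ℕ} (hb : StrictMono b) (d : ℕ) : StrictMono (sh d b) :=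
  fun _ _ h => hb (Nat.add_lt_add_right h d)

/-- The number of elements below `n` of the set enumerated by `b`. -/
def cnt (b : ℕ → ℕ) (n : ℕ) : ℕ := ((Finset.range n).filter fun k => b k < n).card

theorem cnt_eq {b : ℕ → ℕ} (hb : StrictMono b) {n k : ℕ} (h1 : ∀ i < k, b i < n) (h2 : n ≤ b k) :
    cnt b n = k := by
  have h : (Finset.range n).filter (fun i => b i < n) = Finset.range k := by
    ext i
    simp only [Finset.mem_filter, Finset.mem_range]
    constructor
    · rintro ⟨_, h3⟩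
      by_contra h4
      have := hb.monotone (not_lt.mp h4)
      omega
    · intro h3
      have h4 := h1 i h3
      have h5 : i ≤ b i := hb.le_apply
      exact ⟨by omega, h4⟩
  rw [cnt, h, Finset.card_range]

theorem cnt_exists {b : ℕ → ℕ} (hb : StrictMono b) (n : ℕ) :
    ∃ k, (∀ i < k, b i < n) ∧ n ≤ b k := by
  classical
  have hex : ∃ k, n ≤ b k := ⟨n, hb.le_apply⟩
  refine ⟨Nat.find hex, fun i hi => ?_, Nat.find_spec hex⟩
  have := Nat.find_min hex hi
  omega

theorem cnt_sh {b : ℕ → ℕ} (hb : StrictMono b) (d n : ℕ) (h : b d ≤ n) :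
    cnt (sh d b) n + d = cnt b n := by
  obtain ⟨k, h1, h2⟩ := cnt_exists hb n
  have hdk : d ≤ k := hb.le_iff_le.mp (h.trans h2)
  rw [cnt_eq hb h1 h2, cnt_eq (sh_strictMono hb d) (k := k - d)]
  · omega
  · intro i hi
    exact h1 _ (by omega)
  · show n ≤ b (k - d + d)
    have : k - d + d = k := by omega
    rw [this]; exact h2

/-- The position of `c t` in the set enumerated by `b`, modulo `m`. -/
def bt (m : ℕ) (b c : ℕ → ℕ) (t : ℕ) : ZMod m := (cnt b (c t) : ZMod m)

theorem bt_sh_right (m : ℕ) (b c : ℕ → ℕ) (d t : ℕ) : bt m b (sh d c) t = bt m b c (t + d) := rfl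

theorem bt_sh_left (m : ℕ) {b : ℕ → ℕ} (hb : StrictMono b) (c : ℕ → ℕ) (d t : ℕ)
    (h : b d ≤ c t) : bt m (sh d b) c t = bt m b c t + -(d : ZMod m) := by
  unfold bt
  rw [← cnt_sh hb d (c t) h]
  push_cast
  ring

section lin

variable {Q m : ℕ} [Fact m.Prime]

theorem lin_sh_right (b c : ℕ → ℕ) (d : ℕ) (κ e : ZMod m) :
    Lin Q (bt m b (sh d c)) κ e ↔ Lin Q (bt m b c) κ (e - κ * d) :=
  lin_shift (g := bt m b c) d

theorem lin_sh_left {b c : ℕ → ℕ} (hb : StrictMono b) (hc : StrictMono c) (d : ℕ)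
    (κ e : ZMod m) : Lin Q (bt m (sh d b) c) κ e ↔ Lin Q (bt m b c) κ (e + d) := by
  have h : ∀ᶠ t in atTop, bt m (sh d b) c t = bt m b c t + -(d : ZMod m) := by
    filter_upwards [eventually_ge_atTop (b d)] with t ht
    exact bt_sh_left m hb c d t (ht.trans hc.le_apply)
  rw [lin_add h, sub_neg_eq_add]

end lin

set_option inductive.autoPromoteIndices false in
/-- The data of an adjacent pair of states, in terms of base sequences `b`, `c`. -/
inductive Step (d : ℕ) : (ℕ → ℕ) → (ℕ → ℕ) → (ℕ → ℕ) → (ℕ → ℕ) → Prop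
  | one (b c : ℕ → ℕ) (hb : StrictMono b) (hc : StrictMono c) : Step d b c (sh d b) (sh 1 c)
  | two (b c : ℕ → ℕ) (hb : StrictMono b) (hc : StrictMono c) : Step d b (sh 1 c) (sh d b) c

section

variable {Q m : ℕ} [Fact m.Prime]

/-- In an adjacent pair both or neither state has linear `β`. -/
theorem stepA_iff {d : ℕ} {b c b' c' : ℕ → ℕ} (h : Step d b c b' c') :
    (∃ κ e, Lin Q (bt m b c) κ e) ↔ ∃ κ e, Lin Q (bt m b' c') κ e := by
  cases h with
  | one b c hb hc =>
    constructor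
    · rintro ⟨κ, e, h⟩
      refine ⟨κ, e - d + κ * (1 : ℕ), ?_⟩
      rw [lin_sh_right, lin_sh_left hb hc]
      convert h using 1
      ring
    · rintro ⟨κ, e, h⟩
      rw [lin_sh_right, lin_sh_left hb hc] at h
      exact ⟨κ, _, h⟩
  | two b c hb hc =>
    constructor
    · rintro ⟨κ, e, h⟩
      rw [lin_sh_right] at h
      refine ⟨κ, e - κ * (1 : ℕ) - d, ?_⟩
      rw [lin_sh_left hb hc]
      convert h using 1
      ring
    · rintro ⟨κ, e, h⟩
      rw [lin_sh_left hb hc] at h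
      refine ⟨κ, e + d + κ * (1 : ℕ), ?_⟩
      rw [lin_sh_right]
      convert h using 1
      ring

theorem stepA_lin (hQ : (Q : ZMod m) ≠ 0) {d : ℕ} {b c b' c' : ℕ → ℕ} (h : Step d b c b' c')
    {κ e κ' e' : ZMod m} (h1 : Lin Q (bt m b c) κ e) (h2 : Lin Q (bt m b' c') κ' e') :
    κ = κ' ∧ (e' - e = -1 * d + κ ∨ e' - e = -1 * d - κ) := by
  cases h with
  | one b c hb hc =>
    rw [lin_sh_right, lin_sh_left hb hc] at h2
    obtain ⟨h3, h4⟩ := lin_unique hQ h1 h2
    refine ⟨h3, Or.inl ?_⟩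
    rw [h4, ← h3]
    push_cast
    ring
  | two b c hb hc =>
    rw [lin_sh_right] at h1
    rw [lin_sh_left hb hc] at h2
    obtain ⟨h3, h4⟩ := lin_unique hQ h1 h2
    refine ⟨h3, Or.inr ?_⟩
    push_cast at h4
    linear_combination -h4

/-- In an adjacent pair both or neither state has linear `γ`. -/
theorem stepB_iff {d : ℕ} {b c b' c' : ℕ → ℕ} (h : Step d b c b' c') :
    (∃ κ e, Lin Q (bt m c b) κ e) ↔ ∃ κ e, Lin Q (bt m c' b') κ e := by
  cases h with
  | one b c hb hc =>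
    constructor
    · rintro ⟨κ, e, h⟩
      refine ⟨κ, e - (1 : ℕ) + κ * d, ?_⟩
      rw [lin_sh_right, lin_sh_left hc hb]
      convert h using 1
      ring
    · rintro ⟨κ, e, h⟩
      rw [lin_sh_right, lin_sh_left hc hb] at h
      exact ⟨κ, _, h⟩
  | two b c hb hc =>
    constructor
    · rintro ⟨κ, e, h⟩
      rw [lin_sh_left hc hb] at h
      refine ⟨κ, e + (1 : ℕ) + κ * d, ?_⟩
      rw [lin_sh_right]
      convert h using 1
      ring
    · rintro ⟨κ, e, h⟩
      rw [lin_sh_right] at h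
      refine ⟨κ, e - κ * d - (1 : ℕ), ?_⟩
      rw [lin_sh_left hc hb]
      convert h using 1
      ring

theorem stepB_lin (hQ : (Q : ZMod m) ≠ 0) {d : ℕ} {b c b' c' : ℕ → ℕ} (h : Step d b c b' c')
    {κ e κ' e' : ZMod m} (h1 : Lin Q (bt m c b) κ e) (h2 : Lin Q (bt m c' b') κ' e') :
    κ = κ' ∧ (e' - e = κ * d + 1 ∨ e' - e = κ * d - 1) := by
  cases h with
  | one b c hb hc =>
    rw [lin_sh_right, lin_sh_left hc hb] at h2
    obtain ⟨h3, h4⟩ := lin_unique hQ h1 h2
    refine ⟨h3, Or.inr ?_⟩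
    rw [h4, ← h3]
    push_cast
    ring
  | two b c hb hc =>
    rw [lin_sh_left hc hb] at h1
    rw [lin_sh_right] at h2
    obtain ⟨h3, h4⟩ := lin_unique hQ h1 h2
    refine ⟨h3, Or.inl ?_⟩
    rw [← h3] at h4
    push_cast at h4
    linear_combination -h4

end

/-- The difference sequence. -/
def dx (m : ℕ) (b c : ℕ → ℕ) (t : ℕ) : ZMod m := bt m b c (t + 1) - bt m b c t

/-- In zone 1 adjacent states have `x`-sequences shifted by one. -/
theorem step_zone1 (m : ℕ) {d : ℕ} {b c b' c' : ℕ → ℕ} (h : Step d b c b' c')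
    (h1 : b 0 ≤ c 0) (h2 : b' 0 ≤ c' 0) :
    (dx m b' c' = fun t => dx m b c (t + 1)) ∨ (dx m b c = fun t => dx m b' c' (t + 1)) := by
  cases h with
  | one b c hb hc =>
    left
    funext t
    have h3 : b d ≤ c 1 := by simpa [sh] using h2
    have h4 : ∀ s, b d ≤ sh 1 c s := fun s => h3.trans (hc.monotone (Nat.le_add_left 1 s))
    unfold dx
    rw [bt_sh_left m hb _ d _ (h4 _), bt_sh_left m hb _ d _ (h4 _), bt_sh_right, bt_sh_right]
    ring
  | two b c hb hc =>
    right
    funext t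
    have h3 : b d ≤ c' 0 := by simpa [sh] using h2
    have h4 : ∀ s, b d ≤ c' s := fun s => h3.trans (hc.monotone (Nat.zero_le s))
    unfold dx
    rw [bt_sh_left m hb _ d _ (h4 _), bt_sh_left m hb _ d _ (h4 _), bt_sh_right, bt_sh_right]
    ring

/-- In zone 2 adjacent states have `y`-sequences shifted by `d`. -/
theorem step_zone2 (m : ℕ) {d : ℕ} {b c b' c' : ℕ → ℕ} (h : Step d b c b' c')
    (h1 : c 0 < b 0) (h2 : c' 0 < b' 0) :
    dx m c' b' = fun t => dx m c b (t + d) := by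
  cases h with
  | one b c hb hc =>
    funext t
    have h3 : c 1 < b d := by simpa [sh] using h2
    have h4 : ∀ s, c 1 ≤ sh d b s := fun s => h3.le.trans (hb.monotone (Nat.le_add_left d s))
    unfold dx
    rw [bt_sh_left m hc _ 1 _ (h4 _), bt_sh_left m hc _ 1 _ (h4 _), bt_sh_right, bt_sh_right]
    have h5 : t + 1 + d = t + d + 1 := by omega
    rw [h5]
    ring
  | two b c hb hc =>
    funext t
    have h3 : c' 1 < b 0 := by simpa [sh] using h1
    have h4 : ∀ s, c' 1 ≤ b s := fun s => h3.le.trans (hb.monotone (Nat.zero_le s))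
    unfold dx
    rw [bt_sh_left m hc _ 1 _ (h4 _), bt_sh_left m hc _ 1 _ (h4 _), bt_sh_right, bt_sh_right]
    have h5 : t + 1 + d = t + d + 1 := by omega
    rw [h5]
    ring

end Pool.Agent.MP_09920c_lc
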