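import Mathlib
import Pool.Agent.Lib.MP_09920c_lc.State

/-!
# The colouring of the product, for a fixed level `L`
-/

set_option autoImplicit false

open Filter

namespace Pool.Agent.MP_09920c_lc

theorem measurable_cnt (n : ℕ) : Measurable fun b : ℕ → ℕ => cnt b n := by
  unfold cnt
  simp only [Finset.card_filter]
  refine Finset.measurable_fun_sum _ fun k _ => ?_
  refine Measurable.ite ?_ measurable_const measurable_const
  exact measurableSet_lt (measurable_pi_apply k) measurable_const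

theorem measurable_cnt₂ (t : ℕ) : Measurable fun p : (ℕ → ℕ) × (ℕ → ℕ) => cnt p.1 (p.2 t) := by
  have h : Measurable fun q : (ℕ → ℕ) × ℕ => cnt q.1 q.2 :=
    measurable_from_prod_countable_left fun n => measurable_cnt n
  exact h.comp (measurable_fst.prodMk ((measurable_pi_apply t).comp measurable_snd))

theorem measurable_bt (m t : ℕ) : Measurable fun p : (ℕ → ℕ) × (ℕ → ℕ) => bt m p.1 p.2 t :=
  (measurable_of_countable (fun n : ℕ => (n : ZMod m))).comp (measurable_cnt₂ t)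

theorem measurable_bt' (m t : ℕ) : Measurable fun p : (ℕ → ℕ) × (ℕ → ℕ) => bt m p.2 p.1 t :=
  (measurable_bt m t).comp measurable_swap

theorem measurable_lin {Q m : ℕ} [NeZero m] {Ω : Type*} [MeasurableSpace Ω] (g : Ω → ℕ → ZMod m)
    (hg : ∀ t, Measurable fun s => g s t) (κ e : ZMod m) :
    MeasurableSet {s | Lin Q (g s) κ e} := by
  refine ms_ev fun t => ms_and ?_ ?_
  · exact measurableSet_eq_fun (hg _) ((hg _).add measurable_const)
  · refine measurableSet_eq_fun ?_ measurable_const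
    exact Finset.measurable_fun_sum _ fun r _ => (hg _).sub measurable_const

theorem measurable_dx (m t : ℕ) [NeZero m] (v : ZMod m) :
    MeasurableSet {p : (ℕ → ℕ) × (ℕ → ℕ) | dx m p.1 p.2 t = v} :=
  measurableSet_eq_fun ((measurable_bt m _).sub (measurable_bt m _)) measurable_const

theorem measurable_dx' (m t : ℕ) [NeZero m] (v : ZMod m) :
    MeasurableSet {p : (ℕ → ℕ) × (ℕ → ℕ) | dx m p.2 p.1 t = v} :=
  measurableSet_eq_fun ((measurable_bt' m _).sub (measurable_bt' m _)) measurable_const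

/-- The colour used on states with an eventually linear sequence. -/
def lc (m : ℕ) (j1 j2 : ZMod m) (l0 : ℕ) (e : ZMod m) (i : ℕ) : ℕ :=
  10 * arc m (j1 * e) + 2 * arc m (j2 * e) + (i.testBit l0).toNat

theorem lc_lt (m : ℕ) [NeZero m] (j1 j2 : ZMod m) (l0 : ℕ) (e : ZMod m) (i : ℕ) :
    lc m j1 j2 l0 e i < 50 := by
  have h1 := arc_lt m (j1 * e)
  have h2 := arc_lt m (j2 * e)
  have h3 := Bool.toNat_lt (i.testBit l0)
  unfold lc
  omega

theorem lc_ne (m : ℕ) [NeZero m] (j1 j2 : ZMod m) (l0 l : ℕ) (κ lam D e e' : ZMod m) (i j : ℕ)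
    (hij : i.testBit l ≠ j.testBit l)
    (h1 : l < l0 → Far m (j1 * (κ * D + lam)) ∧ Far m (j1 * (κ * D - lam)))
    (h2 : l0 < l → Far m (j2 * (κ * D + lam)) ∧ Far m (j2 * (κ * D - lam)))
    (he : e' - e = κ * D + lam ∨ e' - e = κ * D - lam) :
    lc m j1 j2 l0 e i ≠ lc m j1 j2 l0 e' j := by
  intro heq
  have a1 := arc_lt m (j1 * e)
  have a2 := arc_lt m (j2 * e)
  have a3 := arc_lt m (j1 * e')
  have a4 := arc_lt m (j2 * e')
  have a5 := Bool.toNat_lt (i.testBit l0)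
  have a6 := Bool.toNat_lt (j.testBit l0)
  unfold lc at heq
  rcases lt_trichotomy l l0 with h | h | h
  · obtain ⟨f1, f2⟩ := h1 h
    have hf : Far m (j1 * e' - j1 * e) := by
      rw [← mul_sub]
      rcases he with he | he <;> rw [he] <;> assumption
    have := arc_ne_of_far m _ _ hf
    omega
  · subst h
    have : (i.testBit l).toNat ≠ (j.testBit l).toNat := by
      intro h5
      apply hij
      cases hi : i.testBit l <;> cases hj : j.testBit l <;> simp_all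
    omega
  · obtain ⟨f1, f2⟩ := h2 h
    have hf : Far m (j2 * e' - j2 * e) := by
      rw [← mul_sub]
      rcases he with he | he <;> rw [he] <;> assumption
    have := arc_ne_of_far m _ _ hf
    omega

/-- For each level `L` the product has a Borel colouring with `108` colours. -/
theorem color_exists (L : ℕ) : ∃ Col : ℕ → (ℕ → ℕ) → (ℕ → ℕ) → ℕ → Prop,
    (∀ i k, MeasurableSet {p : (ℕ → ℕ) × (ℕ → ℕ) | Col i p.1 p.2 k}) ∧
    (∀ i b c, ∃ k < 108, Col i b c k) ∧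
    (∀ l < L, ∀ i j : ℕ, i.testBit l ≠ j.testBit l → ∀ b c b' c',
      Step (11 ^ (2 * l + 1)) b c b' c' → ∀ k, Col i b c k → ¬ Col j b' c' k) := by
  classical
  set K : ℕ := 11 ^ (2 * L) with hK
  set Q : ℕ := (2 * K).factorial with hQdef
  obtain ⟨m, hm, hmp⟩ := Nat.exists_infinite_primes (2 * K + 1 + 10 * 11 ^ (2 * L + 2))
  haveI : Fact m.Prime := ⟨hmp⟩
  have hQ : (Q : ZMod m) ≠ 0 := by
    intro h
    rw [ZMod.natCast_eq_zero_iff] at h
    have := (hmp.dvd_factorial).mp h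
    omega
  have hQdvd : ∀ p, 0 < p → p < 2 * K → p ∣ Q := fun p hp hp' => Nat.dvd_factorial hp hp'.le
  have hnum : ∀ κ lam : ZMod m, ∃ (j1 j2 : ZMod m) (l0 : ℕ), (κ ≠ 0 ∨ lam ≠ 0) → ∀ l < L,
      (l < l0 → Far m (j1 * (κ * ((11 : ℕ) : ZMod m) ^ (2 * l + 1) + lam)) ∧
        Far m (j1 * (κ * ((11 : ℕ) : ZMod m) ^ (2 * l + 1) - lam))) ∧
      (l0 < l → Far m (j2 * (κ * ((11 : ℕ) : ZMod m) ^ (2 * l + 1) + lam)) ∧
        Far m (j2 * (κ * ((11 : ℕ) : ZMod m) ^ (2 * l + 1) - lam))) := by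
    intro κ lam
    by_cases h : κ ≠ 0 ∨ lam ≠ 0
    · obtain ⟨j1, j2, l0, hj⟩ := num_lemma 11 L m (by decide) le_rfl (by omega) κ lam h
      exact ⟨j1, j2, l0, fun _ => hj⟩
    · exact ⟨0, 0, 0, fun h' => absurd h' h⟩
  choose J1 J2 L0 hJ using hnum
  refine ⟨fun i b c k =>
    (∃ κ e, Lin Q (bt m b c) κ e ∧ k = lc m (J1 (-1) κ) (J2 (-1) κ) (L0 (-1) κ) e i) ∨
    ((¬ ∃ κ e, Lin Q (bt m b c) κ e) ∧
      ∃ κ e, Lin Q (bt m c b) κ e ∧ k = 50 + lc m (J1 κ 1) (J2 κ 1) (L0 κ 1) e i) ∨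
    ((¬ ∃ κ e, Lin Q (bt m b c) κ e) ∧ (¬ ∃ κ e, Lin Q (bt m c b) κ e) ∧ b 0 ≤ c 0 ∧
      ∃ (w : Fin (Q + 1) → ZMod m) (r : ℕ), Mk (dx m b c) w r ∧ k = 100 + mcl K r) ∨
    ((¬ ∃ κ e, Lin Q (bt m b c) κ e) ∧ (¬ ∃ κ e, Lin Q (bt m c b) κ e) ∧ c 0 < b 0 ∧
      ∃ (w : Fin (Q + 1) → ZMod m) (r : ℕ), Mk (dx m c b) w r ∧ k = 104 + mcl K r), ?_, ?_, ?_⟩
  · intro i k
    have mA : ∀ κ e, MeasurableSet {p : (ℕ → ℕ) × (ℕ → ℕ) | Lin Q (bt m p.1 p.2) κ e} :=
      fun κ e => measurable_lin _ (fun t => measurable_bt m t) κ e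
    have mB : ∀ κ e, MeasurableSet {p : (ℕ → ℕ) × (ℕ → ℕ) | Lin Q (bt m p.2 p.1) κ e} :=
      fun κ e => measurable_lin _ (fun t => measurable_bt' m t) κ e
    have mA' := ms_not (ms_exists fun κ => ms_exists fun e => mA κ e)
    have mB' := ms_not (ms_exists fun κ => ms_exists fun e => mB κ e)
    refine ms_or ?_ (ms_or ?_ (ms_or ?_ ?_))
    · exact ms_exists fun κ => ms_exists fun e => ms_and (mA κ e) (ms_const _)
    · exact ms_and mA' (ms_exists fun κ => ms_exists fun e => ms_and (mB κ e) (ms_const _))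
    · refine ms_and mA' (ms_and mB' (ms_and ?_ ?_))
      · exact measurableSet_le ((measurable_pi_apply 0).comp measurable_fst)
          ((measurable_pi_apply 0).comp measurable_snd)
      · exact measurable_mcol _ (fun t v => measurable_dx m t v) K (fun n => k = 100 + n)
    · refine ms_and mA' (ms_and mB' (ms_and ?_ ?_))
      · exact measurableSet_lt ((measurable_pi_apply 0).comp measurable_snd)
          ((measurable_pi_apply 0).comp measurable_fst)
      · exact measurable_mcol _ (fun t v => measurable_dx' m t v) K (fun n => k = 104 + n)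
  · intro i b c
    by_cases hA : ∃ κ e, Lin Q (bt m b c) κ e
    · obtain ⟨κ, e, h⟩ := hA
      refine ⟨_, ?_, Or.inl ⟨κ, e, h, rfl⟩⟩
      have := lc_lt m (J1 (-1) κ) (J2 (-1) κ) (L0 (-1) κ) e i
      omega
    · by_cases hB : ∃ κ e, Lin Q (bt m c b) κ e
      · obtain ⟨κ, e, h⟩ := hB
        refine ⟨_, ?_, Or.inr (Or.inl ⟨hA, κ, e, h, rfl⟩)⟩
        have := lc_lt m (J1 κ 1) (J2 κ 1) (L0 κ 1) e i
        omega
      · by_cases hz : b 0 ≤ c 0
        · obtain ⟨w, r, h⟩ := exists_mk (Q := Q) (dx m b c) (not_periodic hQ hA)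
          refine ⟨_, ?_, Or.inr (Or.inr (Or.inl ⟨hA, hB, hz, w, r, h, rfl⟩))⟩
          have := mcl_lt K r
          omega
        · obtain ⟨w, r, h⟩ := exists_mk (Q := Q) (dx m c b) (not_periodic hQ hB)
          refine ⟨_, ?_, Or.inr (Or.inr (Or.inr ⟨hA, hB, by omega, w, r, h, rfl⟩))⟩
          have := mcl_lt K r
          omega
  · intro l hl i j hij b c b' c' hstep k h1 h2
    have hdodd : Odd (11 ^ (2 * l + 1)) := Odd.pow (by decide)
    have hdK : 11 ^ (2 * l + 1) < K := Nat.pow_lt_pow_right (by norm_num) (by omega)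
    have h1K : 1 < K := lt_of_le_of_lt (Nat.one_le_pow _ _ (by norm_num)) hdK
    have hcast : ((11 ^ (2 * l + 1) : ℕ) : ZMod m) = ((11 : ℕ) : ZMod m) ^ (2 * l + 1) := by
      push_cast; ring
    have eA := stepA_iff (Q := Q) (m := m) hstep
    have eB := stepB_iff (Q := Q) (m := m) hstep
    have bnd : ∀ (e : ZMod m) (κ lam : ZMod m) (n : ℕ),
        lc m (J1 κ lam) (J2 κ lam) (L0 κ lam) e n < 50 := fun e κ lam n => lc_lt _ _ _ _ _ _
    rcases h1 with ⟨κ, e, h1, hk⟩ | ⟨nA, κ, e, h1, hk⟩ | ⟨nA, nB, hz, w, r, h1, hk⟩ |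
      ⟨nA, nB, hz, w, r, h1, hk⟩
    · rcases h2 with ⟨κ', e', h2, hk'⟩ | ⟨nA', κ', e', h2, hk'⟩ | ⟨nA', nB', hz', w', r', h2, hk'⟩ |
        ⟨nA', nB', hz', w', r', h2, hk'⟩
      · obtain ⟨hκ, he⟩ := stepA_lin hQ hstep h1 h2
        subst hκ
        rw [hcast] at he
        obtain ⟨f1, f2⟩ := hJ (-1) κ (Or.inl (neg_ne_zero.mpr one_ne_zero)) l hl
        exact lc_ne m _ _ _ l (-1) κ _ e e' i j hij f1 f2 he (hk.symm.trans hk')
      · exact nA' (eA.mp ⟨κ, e, h1⟩)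
      · exact nA' (eA.mp ⟨κ, e, h1⟩)
      · exact nA' (eA.mp ⟨κ, e, h1⟩)
    · rcases h2 with ⟨κ', e', h2, hk'⟩ | ⟨nA', κ', e', h2, hk'⟩ | ⟨nA', nB', hz', w', r', h2, hk'⟩ |
        ⟨nA', nB', hz', w', r', h2, hk'⟩
      · exact nA (eA.mpr ⟨κ', e', h2⟩)
      · obtain ⟨hκ, he⟩ := stepB_lin hQ hstep h1 h2
        subst hκ
        rw [hcast] at he
        obtain ⟨f1, f2⟩ := hJ κ 1 (Or.inr one_ne_zero) l hl
        refine lc_ne m _ _ _ l κ 1 _ e e' i j hij f1 f2 he ?_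
        omega
      · exact nB' (eB.mp ⟨κ, e, h1⟩)
      · exact nB' (eB.mp ⟨κ, e, h1⟩)
    · rcases h2 with ⟨κ', e', h2, hk'⟩ | ⟨nA', κ', e', h2, hk'⟩ | ⟨nA', nB', hz', w', r', h2, hk'⟩ |
        ⟨nA', nB', hz', w', r', h2, hk'⟩
      · exact nA (eA.mpr ⟨κ', e', h2⟩)
      · exact nB (eB.mpr ⟨κ', e', h2⟩)
      · rcases step_zone1 m hstep hz hz' with h3 | h3
        · rw [h3] at h2
          have := mk_proper K hQdvd (dx m b c) 1 (by decide) h1K w w' r r' h1 h2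
          omega
        · rw [h3] at h1
          have := mk_proper K hQdvd (dx m b' c') 1 (by decide) h1K w' w r' r h2 h1
          omega
      · have := mcl_lt K r
        omega
    · rcases h2 with ⟨κ', e', h2, hk'⟩ | ⟨nA', κ', e', h2, hk'⟩ | ⟨nA', nB', hz', w', r', h2, hk'⟩ |
        ⟨nA', nB', hz', w', r', h2, hk'⟩
      · exact nA (eA.mpr ⟨κ', e', h2⟩)
      · exact nB (eB.mpr ⟨κ', e', h2⟩)
      · have := mcl_lt K r'
        omega
      · rw [step_zone2 m hstep hz hz'] at h2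
        have := mk_proper K hQdvd (dx m c b) _ hdodd hdK w w' r r' h1 h2
        omega

end Pool.Agent.MP_09920c_lc
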