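import Mathlib

/-!
# The Galvin–Prikry theorem for finite Borel colourings

Proof with trees branching into sets of a nonprincipal ultrafilter.
-/

set_option autoImplicit false

open Filter Set

namespace Pool.Agent.MP_09920c_lc

namespace GP

/-- The first `n` values of `x`, in reverse order. -/
def pre (x : ℕ → ℕ) : ℕ → List ℕ
  | 0 => []
  | n + 1 => x n :: pre x n

theorem pre_length (x : ℕ → ℕ) (n : ℕ) : (pre x n).length = n := by
  induction n with
  | zero => rfl
  | succ n ih => simp [pre, ih]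

theorem pre_drop (x : ℕ → ℕ) (k n : ℕ) : (pre x (k + n)).drop n = pre x k := by
  induction n with
  | zero => simp
  | succ n ih =>
    have h : k + (n + 1) = (k + n) + 1 := by omega
    rw [h]
    simp [pre, ih]

theorem pre_drop' (x : ℕ → ℕ) {k n : ℕ} (h : k ≤ n) : (pre x n).drop (n - k) = pre x k := by
  obtain ⟨d, rfl⟩ := Nat.exists_eq_add_of_le h
  rw [Nat.add_sub_cancel_left]
  exact pre_drop x k d

theorem pre_inj (x y : ℕ → ℕ) (k : ℕ) (h : pre x k = pre y k) : ∀ i < k, x i = y i := by
  induction k with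
  | zero => intro i hi; omega
  | succ k ih =>
    intro i hi
    simp only [pre, List.cons.injEq] at h
    rcases Nat.lt_succ_iff_lt_or_eq.mp hi with h1 | h1
    · exact ih h.2 i h1
    · rw [h1]; exact h.1

theorem mem_pre (x : ℕ → ℕ) (n : ℕ) (e : ℕ) (h : e ∈ pre x n) : ∃ i < n, e = x i := by
  induction n with
  | zero => simp [pre] at h
  | succ n ih =>
    simp only [pre, List.mem_cons] at h
    rcases h with h | h
    · exact ⟨n, Nat.lt_succ_self n, h⟩
    · obtain ⟨i, hi, he⟩ := ih h
      exact ⟨i, Nat.lt_succ_of_lt hi, he⟩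

/-- All sets in the family are in the ultrafilter. -/
def Big (τ : List ℕ → Set ℕ) : Prop := ∀ t, τ t ∈ hyperfilter ℕ

/-- Branches through `τ` above the stem `s`. -/
def body (s : List ℕ) (τ : List ℕ → Set ℕ) : Set (ℕ → ℕ) :=
  {x | pre x s.length = s ∧ ∀ n, s.length ≤ n → x n ∈ τ (pre x n)}

/-- `X` is decided by a tree above every stem. -/
def Dec (X : Set (ℕ → ℕ)) : Prop :=
  ∀ s, ∃ τ, Big τ ∧ (body s τ ⊆ X ∨ body s τ ⊆ Xᶜ)

theorem big_univ : Big (fun _ => univ) := fun _ => univ_mem

theorem dec_compl (X : Set (ℕ → ℕ)) (h : Dec X) : Dec Xᶜ := by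
  intro s
  obtain ⟨τ, h1, h2⟩ := h s
  refine ⟨τ, h1, ?_⟩
  rcases h2 with h2 | h2
  · right; rw [compl_compl]; exact h2
  · left; exact h2

theorem dec_coord (n : ℕ) (V : Set ℕ) : Dec {x | x n ∈ V} := by
  intro s
  by_cases hs : n < s.length
  · refine ⟨fun _ => univ, big_univ, ?_⟩
    by_cases h : ∃ x, pre x s.length = s ∧ x n ∈ V
    · left
      obtain ⟨x, hx, hxV⟩ := h
      intro y hy
      have h2 := pre_inj y x s.length (by rw [hy.1, hx]) n hs
      show y n ∈ V
      rw [h2]; exact hxV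
    · right
      intro y hy hyV
      exact h ⟨y, hy.1, hyV⟩
  · have hs' : s.length ≤ n := not_lt.mp hs
    rcases (hyperfilter ℕ).mem_or_compl_mem V with h | h
    · exact ⟨fun _ => V, fun _ => h, Or.inl fun y hy => hy.2 n hs'⟩
    · exact ⟨fun _ => Vᶜ, fun _ => h, Or.inr fun y hy => hy.2 n hs'⟩

theorem dec_iUnion (X : ℕ → Set (ℕ → ℕ)) (h : ∀ m, Dec (X m)) : Dec (⋃ m, X m) := by
  classical
  set G : List ℕ → Prop := fun s => ∃ τ, Big τ ∧ body s τ ⊆ ⋃ m, X m with hG
  have hW : ∀ u, ∃ τ, Big τ ∧ (G u → body u τ ⊆ ⋃ m, X m) := by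
    intro u
    by_cases hu : G u
    · obtain ⟨τ, h1, h2⟩ := hu
      exact ⟨τ, h1, fun _ => h2⟩
    · exact ⟨fun _ => univ, big_univ, fun h => absurd h hu⟩
  choose W hWb hWG using hW
  -- gluing
  have glue : ∀ t, (∀ᶠ n in (hyperfilter ℕ : Filter ℕ), G (n :: t)) → G t := by
    intro t ht
    refine ⟨fun t' => {n | t' = t → G (n :: t)} ∩
      W (t'.drop (t'.length - (t.length + 1))) t', ?_, ?_⟩
    · intro t'
      refine inter_mem ?_ (hWb _ _)
      by_cases h' : t' = t
      · filter_upwards [ht] with n hn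
        exact fun _ => hn
      · refine mem_of_superset univ_mem ?_
        intro n _ h''
        exact absurd h'' h'
    · intro x hx
      have hx1 := hx.1
      have h1 := (hx.2 t.length le_rfl).1 hx1
      have hu : pre x (t.length + 1) = x t.length :: t := by
        simp only [pre]; rw [hx1]
      apply hWG (x t.length :: t) h1
      refine ⟨by simpa using hu, ?_⟩
      intro n hn
      have hn' : t.length + 1 ≤ n := by simpa using hn
      have h2 := (hx.2 n (by omega)).2
      rw [pre_length, pre_drop' x hn', hu] at h2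
      exact h2
  have hD : ∀ m u, ∃ τ, Big τ ∧ (body u τ ⊆ X m ∨ body u τ ⊆ (X m)ᶜ) := fun m u => h m u
  choose D hDb hDd using hD
  intro s
  by_cases hs : G s
  · obtain ⟨τ, h1, h2⟩ := hs
    exact ⟨τ, h1, Or.inl h2⟩
  · refine ⟨fun t => {n | ¬ G t → ¬ G (n :: t)} ∩
      ⋂ k ∈ Finset.range (t.length + 1), ⋂ m ∈ Finset.range (k + 1),
        D m (t.drop (t.length - k)) t, ?_, Or.inr ?_⟩
    · intro t
      refine inter_mem ?_ ?_
      · by_cases ht : G t
        · refine mem_of_superset univ_mem ?_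
          intro n _ h'
          exact absurd ht h'
        · have h3 : ¬ ∀ᶠ n in (hyperfilter ℕ : Filter ℕ), G (n :: t) := fun h4 => ht (glue t h4)
          have h4 : ∀ᶠ n in (hyperfilter ℕ : Filter ℕ), ¬ G (n :: t) :=
            Ultrafilter.eventually_not.mpr h3
          filter_upwards [h4] with n hn
          exact fun _ => hn
      · refine (biInter_finset_mem _).mpr ?_
        intro k _
        refine (biInter_finset_mem _).mpr ?_
        intro m _
        exact hDb _ _ _
    · intro x hx hxU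
      have hbad : ∀ n, s.length ≤ n → ¬ G (pre x n) := by
        intro n hn
        induction n, hn using Nat.le_induction with
        | base => rw [hx.1]; exact hs
        | succ n hn ih =>
          exact (hx.2 n hn).1 ih
      obtain ⟨m, hm⟩ := mem_iUnion.mp hxU
      set k := max s.length m with hk
      have hxb : x ∈ body (pre x k) (D m (pre x k)) := by
        refine ⟨by rw [pre_length], ?_⟩
        intro n hn
        rw [pre_length] at hn
        have h5 := (hx.2 n (le_trans (le_max_left _ _) hn)).2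
        have h6 := mem_iInter₂.mp h5 k (by rw [pre_length]; simp; omega)
        have h7 := mem_iInter₂.mp h6 m (by simp; omega)
        rw [pre_length, pre_drop' x hn] at h7
        exact h7
      rcases hDd m (pre x k) with h8 | h8
      · exact hbad k (le_max_left _ _) ⟨D m (pre x k), hDb _ _, h8.trans (subset_iUnion X m)⟩
      · exact h8 hxb hm

/-- The σ-algebra of decided sets. -/
@[reducible] def decMS : MeasurableSpace (ℕ → ℕ) where
  MeasurableSet' := Dec
  measurableSet_empty := by
    intro s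
    exact ⟨fun _ => univ, big_univ, Or.inr (by simp)⟩
  measurableSet_compl := dec_compl
  measurableSet_iUnion := dec_iUnion

theorem dec_of_measurableSet (X : Set (ℕ → ℕ)) (hX : MeasurableSet X) : Dec X := by
  have h : (MeasurableSpace.pi : MeasurableSpace (ℕ → ℕ)) ≤ decMS := by
    refine iSup_le fun n => ?_
    rintro _ ⟨V, _, rfl⟩
    exact dec_coord n V
  exact h X hX

theorem exists_next_aux (N l : ℕ) : ∀ σ : List ℕ → Set ℕ, Big σ →
    ∀ᶠ y in (hyperfilter ℕ : Filter ℕ), ∀ t : List ℕ, t.length ≤ l → (∀ e ∈ t, e ≤ N) → y ∈ σ t := by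
  induction l with
  | zero =>
    intro σ hσ
    filter_upwards [hσ []] with y hy t ht _
    have : t = [] := List.length_eq_zero_iff.mp (Nat.le_zero.mp ht)
    rw [this]; exact hy
  | succ l ih =>
    intro σ hσ
    have h1 : ∀ᶠ y in (hyperfilter ℕ : Filter ℕ), ∀ e ∈ Finset.range (N + 1), ∀ t : List ℕ,
        t.length ≤ l → (∀ e ∈ t, e ≤ N) → y ∈ σ (e :: t) := by
      rw [Finset.eventually_all]
      intro e _
      exact ih (fun t => σ (e :: t)) (fun t => hσ _)
    filter_upwards [h1, hσ []] with y hy hy0 t ht hN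
    cases t with
    | nil => exact hy0
    | cons e t =>
      refine hy e ?_ t (by simpa using ht) (fun e' he' => hN e' (List.mem_cons_of_mem _ he'))
      simp only [Finset.mem_range]
      exact Nat.lt_succ_of_le (hN e (List.mem_cons_self))

theorem exists_next (τ : List ℕ → Set ℕ) (hτ : Big τ) (N : ℕ) :
    ∃ y, N < y ∧ ∀ t : List ℕ, t.length ≤ N + 1 → (∀ e ∈ t, e ≤ N) → y ∈ τ t := by
  have h1 := exists_next_aux N (N + 1) τ hτ
  have h2 : ∀ᶠ y in (hyperfilter ℕ : Filter ℕ), N < y :=
    Nat.hyperfilter_le_atTop (eventually_gt_atTop N)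
  obtain ⟨y, hy1, hy2⟩ := (h2.and h1).exists
  exact ⟨y, hy1, hy2⟩

theorem exists_homogeneous (τ : List ℕ → Set ℕ) (hτ : Big τ) :
    ∃ a : ℕ → ℕ, StrictMono a ∧ ∀ k : ℕ → ℕ, StrictMono k → a ∘ k ∈ body [] τ := by
  choose nx hnx1 hnx2 using exists_next τ hτ
  obtain ⟨a0, ha0⟩ : ∃ y, y ∈ τ [] := Filter.nonempty_of_mem (hτ [])
  let a : ℕ → ℕ := fun n => Nat.rec a0 (fun _ v => nx v) n
  have has : ∀ n, a (n + 1) = nx (a n) := fun n => rfl
  have ham : StrictMono a := strictMono_nat_of_lt_succ fun n => by rw [has]; exact hnx1 _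
  refine ⟨a, ham, ?_⟩
  intro k hk
  refine ⟨rfl, ?_⟩
  intro n _
  have hkn : n ≤ k n := hk.le_apply
  rcases Nat.eq_zero_or_pos (k n) with h0 | h0
  · have hn : n = 0 := by omega
    subst hn
    show a (k 0) ∈ τ []
    rw [h0]
    exact ha0
  · obtain ⟨j, hj⟩ : ∃ j, k n = j + 1 := ⟨k n - 1, by omega⟩
    show a (k n) ∈ τ (pre (a ∘ k) n)
    rw [hj, has]
    have hja : j ≤ a j := ham.le_apply
    refine hnx2 (a j) _ ?_ ?_
    · rw [pre_length]; omega
    · intro e he
      obtain ⟨i, hi, rfl⟩ := mem_pre _ _ _ he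
      show a (k i) ≤ a j
      refine ham.monotone ?_
      have := hk hi
      omega

end GP

open GP in
/-- **Galvin–Prikry theorem** for Borel colourings with finitely many colours. -/
theorem galvinPrikry {α : Type*} [Finite α] [MeasurableSpace α] [MeasurableSingletonClass α]
    (c : (ℕ → ℕ) → α) (hc : Measurable c) :
    ∃ a : ℕ → ℕ, StrictMono a ∧ ∀ k : ℕ → ℕ, StrictMono k → c (a ∘ k) = c a := by
  have h : ∀ v : α, ∃ τ, Big τ ∧ (body [] τ ⊆ {x | c x = v} ∨ body [] τ ⊆ {x | c x = v}ᶜ) := by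
    intro v
    exact dec_of_measurableSet _ (hc (measurableSet_singleton v)) []
  choose T hT1 hT2 using h
  obtain ⟨a, ha, hk⟩ := exists_homogeneous (fun t => ⋂ v, T v t)
    (fun t => Filter.iInter_mem.mpr fun v => hT1 v t)
  have hsub : ∀ v, body [] (fun t => ⋂ v, T v t) ⊆ body [] (T v) := by
    intro v x hx
    exact ⟨hx.1, fun n hn => mem_iInter.mp (hx.2 n hn) v⟩
  refine ⟨a, ha, ?_⟩
  intro k hk'
  have h1 : a ∈ body [] (T (c a)) := hsub (c a) (hk id strictMono_id)
  rcases hT2 (c a) with h2 | h2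
  · exact h2 (hsub (c a) (hk k hk'))
  · exact absurd rfl (h2 h1)

end Pool.Agent.MP_09920c_lc
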