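import Mathlib
import Pool.Agent.Lib.MP_09920c_lc.GalvinPrikry
import Pool.Agent.Lib.MP_09920c_lc.Color

/-!
# Two Borel graphs with infinite Borel chromatic numbers and finite product
-/

set_option autoImplicit false

open Filter

namespace Pool.Agent.MP_09920c_lc

/-- The vertices `(L, i, b)` of the first graph. -/
abbrev V1 : Type := ℕ × ℕ × (ℕ → ℕ)

/-- Directed edges of the first graph. -/
def Arr1 (x y : V1) : Prop :=
  x.1 = y.1 ∧ ∃ l, l < x.1 ∧ x.2.1.testBit l = false ∧ y.2.1.testBit l = true ∧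
    StrictMono x.2.2 ∧ y.2.2 = sh (11 ^ (2 * l + 1)) x.2.2

/-- Directed edges of the shift graph. -/
def Arr2 (x y : ℕ → ℕ) : Prop := StrictMono x ∧ y = sh 1 x

theorem arr1_irrefl (x : V1) : ¬ Arr1 x x := by
  rintro ⟨_, l, _, h1, h2, _⟩
  rw [h1] at h2
  exact Bool.false_ne_true h2

theorem arr2_irrefl (x : ℕ → ℕ) : ¬ Arr2 x x := by
  rintro ⟨h1, h2⟩
  have h3 : x 0 = x 1 := congrFun h2 0
  have h4 : x 0 < x 1 := h1 Nat.zero_lt_one
  omega

/-- The first graph. -/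
def G1 : SimpleGraph V1 where
  Adj x y := Arr1 x y ∨ Arr1 y x
  symm := ⟨fun _ _ h => h.symm⟩
  loopless := ⟨fun x h => h.elim (arr1_irrefl x) (arr1_irrefl x)⟩

/-- The shift graph. -/
def G2 : SimpleGraph (ℕ → ℕ) where
  Adj x y := Arr2 x y ∨ Arr2 y x
  symm := ⟨fun _ _ h => h.symm⟩
  loopless := ⟨fun x h => h.elim (arr2_irrefl x) (arr2_irrefl x)⟩

/-- The categorical product. -/
def G12 : SimpleGraph (V1 × (ℕ → ℕ)) where
  Adj x y := G1.Adj x.1 y.1 ∧ G2.Adj x.2 y.2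
  symm := ⟨fun _ _ h => ⟨h.1.symm, h.2.symm⟩⟩
  loopless := ⟨fun x h => G1.loopless.irrefl x.1 h.1⟩

section meas

variable {Ω : Type*} [MeasurableSpace Ω]

theorem ms_strictMono (f : Ω → ℕ → ℕ) (hf : Measurable f) :
    MeasurableSet {s | StrictMono (f s)} := by
  unfold StrictMono
  refine ms_forall fun a => ms_forall fun b => ms_forall fun _ => ?_
  exact measurableSet_lt ((measurable_pi_apply a).comp hf) ((measurable_pi_apply b).comp hf)

theorem ms_eq_sh (f g : Ω → ℕ → ℕ) (hf : Measurable f) (hg : Measurable g) (d : ℕ) :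
    MeasurableSet {s | g s = sh d (f s)} := by
  simp only [funext_iff]
  refine ms_forall fun t => ?_
  exact measurableSet_eq_fun ((measurable_pi_apply t).comp hg) ((measurable_pi_apply (t + d)).comp hf)

theorem ms_nat (f : Ω → ℕ) (hf : Measurable f) (P : ℕ → Prop) : MeasurableSet {s | P (f s)} :=
  hf (MeasurableSet.of_discrete (s := {n | P n}))

theorem ms_arr1 (f g : Ω → V1) (hf : Measurable f) (hg : Measurable g) :
    MeasurableSet {s | Arr1 (f s) (g s)} := by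
  unfold Arr1
  refine ms_and (measurableSet_eq_fun hf.fst hg.fst) (ms_exists fun l => ?_)
  refine ms_and ?_ (ms_and ?_ (ms_and ?_ (ms_and ?_ ?_)))
  · exact ms_nat _ hf.fst (fun n => l < n)
  · exact ms_nat _ hf.snd.fst (fun n => n.testBit l = false)
  · exact ms_nat _ hg.snd.fst (fun n => n.testBit l = true)
  · exact ms_strictMono _ hf.snd.snd
  · exact ms_eq_sh _ _ hf.snd.snd hg.snd.snd _

theorem ms_arr2 (f g : Ω → ℕ → ℕ) (hf : Measurable f) (hg : Measurable g) :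
    MeasurableSet {s | Arr2 (f s) (g s)} :=
  ms_and (ms_strictMono _ hf) (ms_eq_sh _ _ hf hg _)

theorem ms_G1 (f g : Ω → V1) (hf : Measurable f) (hg : Measurable g) :
    MeasurableSet {s | G1.Adj (f s) (g s)} :=
  ms_or (ms_arr1 f g hf hg) (ms_arr1 g f hg hf)

theorem ms_G2 (f g : Ω → ℕ → ℕ) (hf : Measurable f) (hg : Measurable g) :
    MeasurableSet {s | G2.Adj (f s) (g s)} :=
  ms_or (ms_arr2 f g hf hg) (ms_arr2 g f hg hf)

theorem ms_G12 (f g : Ω → V1 × (ℕ → ℕ)) (hf : Measurable f) (hg : Measurable g) :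
    MeasurableSet {s | G12.Adj (f s) (g s)} :=
  ms_and (ms_G1 _ _ hf.fst hg.fst) (ms_G2 _ _ hf.snd hg.snd)

end meas

/-! ### Lower bounds -/

theorem measurable_fin {Ω : Type*} [MeasurableSpace Ω] (n : ℕ) (c : Ω → ℕ) (hc : Measurable c)
    (hn : ∀ s, c s < n) : Measurable (fun s => (⟨c s, hn s⟩ : Fin n)) := by
  refine measurable_to_countable' fun v => ?_
  have : (fun s => (⟨c s, hn s⟩ : Fin n)) ⁻¹' {v} = {s | c s = v} := by
    ext s
    simp [Fin.ext_iff]
  rw [this]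
  exact ms_nat c hc (fun k => k = v)

theorem G2_lower (n : ℕ) : ¬ ∃ c : (ℕ → ℕ) → ℕ, Measurable c ∧ (∀ y, c y < n) ∧
    ∀ x y, G2.Adj x y → c x ≠ c y := by
  rintro ⟨c, hc, hn, hp⟩
  obtain ⟨a, ha, hk⟩ := galvinPrikry _ (measurable_fin n c hc hn)
  have h1 := hk (fun t => t + 1) (fun _ _ h => Nat.succ_lt_succ h)
  have h2 : c (sh 1 a) = c a := congrArg Fin.val h1
  exact hp a (sh 1 a) (Or.inl ⟨ha, rfl⟩) h2.symm

theorem exists_bit (n : ℕ) (i j : ℕ) (hi : i < 2 ^ n) (hj : j < 2 ^ n) (hij : i ≠ j) :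
    ∃ l < n, i.testBit l ≠ j.testBit l := by
  by_contra hcon
  apply hij
  apply Nat.eq_of_testBit_eq
  intro l
  by_cases hl : l < n
  · by_contra h
    exact hcon ⟨l, hl, h⟩
  · have h2 : 2 ^ n ≤ 2 ^ l := Nat.pow_le_pow_right (by norm_num) (not_lt.mp hl)
    rw [Nat.testBit_lt_two_pow (lt_of_lt_of_le hi h2), Nat.testBit_lt_two_pow (lt_of_lt_of_le hj h2)]

theorem G1_lower (n : ℕ) : ¬ ∃ c : V1 → ℕ, Measurable c ∧ (∀ y, c y < n) ∧
    ∀ x y, G1.Adj x y → c x ≠ c y := by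
  rintro ⟨c, hc, hn, hp⟩
  have hm : Measurable fun (b : ℕ → ℕ) (i : Fin (2 ^ n)) => (⟨c (n, i, b), hn _⟩ : Fin n) := by
    rw [measurable_pi_iff]
    intro i
    refine measurable_fin n (fun b : ℕ → ℕ => c (n, i, b)) ?_ _
    exact hc.comp (measurable_const.prodMk (measurable_const.prodMk measurable_id))
  obtain ⟨a, ha, hk⟩ := galvinPrikry _ hm
  have hsh : ∀ (i : Fin (2 ^ n)) (d : ℕ), c (n, i, sh d a) = c (n, i, a) := by
    intro i d
    have h1 := hk (fun t => t + d) (fun _ _ h => Nat.add_lt_add_right h d)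
    exact congrArg Fin.val (congrFun h1 i)
  have hne : ∀ (i j : Fin (2 ^ n)) (l : ℕ), l < n → (i : ℕ).testBit l = false →
      (j : ℕ).testBit l = true → c (n, i, a) ≠ c (n, j, a) := by
    intro i j l hl hi hj
    rw [← hsh j (11 ^ (2 * l + 1))]
    exact hp _ _ (Or.inl ⟨rfl, l, hl, hi, hj, ha, rfl⟩)
  have hinj : Function.Injective (fun i : Fin (2 ^ n) => (⟨c (n, i, a), hn _⟩ : Fin n)) := by
    intro i j hij
    have hij' : c (n, i, a) = c (n, j, a) := congrArg Fin.val hij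
    by_contra hne'
    obtain ⟨l, hl, hb⟩ := exists_bit n i j i.2 j.2 (fun h => hne' (Fin.ext h))
    cases hi : (i : ℕ).testBit l
    · cases hj : (j : ℕ).testBit l
      · exact hb (by rw [hi, hj])
      · exact hne i j l hl hi hj hij'
    · cases hj : (j : ℕ).testBit l
      · exact hne j i l hl hj hi hij'.symm
      · exact hb (by rw [hi, hj])
  have hcard := Fintype.card_le_of_injective _ hinj
  simp only [Fintype.card_fin] at hcard
  have : n < 2 ^ n := Nat.lt_two_pow_self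
  omega

/-! ### Upper bound -/

theorem step_of_adj (x y : V1) (c c' : ℕ → ℕ) (h : Arr1 x y) (h' : Arr2 c c' ∨ Arr2 c' c) :
    x.1 = y.1 ∧ ∃ l, l < x.1 ∧ x.2.1.testBit l ≠ y.2.1.testBit l ∧
      Step (11 ^ (2 * l + 1)) x.2.2 c y.2.2 c' := by
  obtain ⟨h1, l, hl, hx, hy, hb, hb'⟩ := h
  refine ⟨h1, l, hl, by rw [hx, hy]; decide, ?_⟩
  rw [hb']
  rcases h' with ⟨hc, hc'⟩ | ⟨hc, hc'⟩
  · rw [hc']
    exact Step.one _ _ hb hc
  · rw [hc']
    exact Step.two _ _ hb hc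

theorem G12_upper : ∃ c : V1 × (ℕ → ℕ) → ℕ, Measurable c ∧ (∀ y, c y < 108) ∧
    ∀ x y, G12.Adj x y → c x ≠ c y := by
  classical
  choose Col hm hex hpr using color_exists
  have hex' : ∀ x : V1 × (ℕ → ℕ), ∃ k, k < 108 ∧ Col x.1.1 x.1.2.1 x.1.2.2 x.2 k :=
    fun x => hex _ _ _ _
  have key : ∀ x y : V1 × (ℕ → ℕ), Arr1 x.1 y.1 → (Arr2 x.2 y.2 ∨ Arr2 y.2 x.2) →
      Nat.find (hex' x) ≠ Nat.find (hex' y) := by
    intro x y h h' heq
    obtain ⟨h1, l, hl, hb, hs⟩ := step_of_adj x.1 y.1 x.2 y.2 h h'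
    have hx := (Nat.find_spec (hex' x)).2
    have hy := (Nat.find_spec (hex' y)).2
    rw [← heq, ← h1] at hy
    exact hpr x.1.1 l hl _ _ hb _ _ _ _ hs _ hx hy
  refine ⟨fun x => Nat.find (hex' x), ?_, fun x => (Nat.find_spec (hex' x)).1, ?_⟩
  · refine measurable_find hex' fun k => ?_
    refine ms_and (ms_const _) ?_
    have heq : {x : V1 × (ℕ → ℕ) | Col x.1.1 x.1.2.1 x.1.2.2 x.2 k} =
        {x | ∃ L i : ℕ, x.1.1 = L ∧ x.1.2.1 = i ∧ Col L i x.1.2.2 x.2 k} := by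
      ext x
      constructor
      · intro h
        exact ⟨_, _, rfl, rfl, h⟩
      · rintro ⟨L, i, rfl, rfl, h⟩
        exact h
    rw [heq]
    refine ms_exists fun L => ms_exists fun i => ms_and ?_ (ms_and ?_ ?_)
    · exact ms_nat (fun x : V1 × (ℕ → ℕ) => x.1.1) measurable_fst.fst (fun n => n = L)
    · exact ms_nat (fun x : V1 × (ℕ → ℕ) => x.1.2.1) measurable_fst.snd.fst (fun n => n = i)
    · exact (measurable_fst.snd.snd.prodMk measurable_snd) (hm L i k)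
  · rintro x y ⟨h1, h2⟩
    rcases h1 with h1 | h1
    · exact key x y h1 h2
    · exact (key y x h1 h2.symm).symm

end Pool.Agent.MP_09920c_lc
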